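import Mathlib
import Pool.Agent.Lib.MP_f9c64b_gt.Roots

/-!
Weyl groups of Poisson manifolds of proper type are crystallographic, and the finite ones are of
Lie type.

The Weyl group `W` of a Poisson manifold of proper type acts faithfully, by integral affine
transformations, on the orbifold universal cover `X` of the leaf space, which is a simply connected
integral affine manifold, and is generated by geometric reflections.  For every such `W`:

* two geometric reflections whose product has finite order have product of order
  `1`, `2`, `3`, `4` or `6` (`W` may be infinite here);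
* if `W` is finite, it is isomorphic to the Weyl group of a reduced root datum on the lattice
  `ℤ^q`, by an isomorphism which is compatible with the linear holonomy on `ℤ^q` and under which
  the geometric reflections of `W` are exactly the reflections in the roots.
-/

set_option autoImplicit false

open Topology Set

namespace Pool.Agent.Lib.MPf9c64b

/-- A space with a developing map is locally path connected. -/
theorem IntegralAffineAction.locallyPathConnectedSpace {q : ℕ} {W X : Type*} [TopologicalSpace X]
    [Group W] [MulAction W X] (I : IntegralAffineAction q W X) :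
    LocallyPathConnectedSpace X := by
  choose e he hde using I.dev_isLocalHomeomorph
  let cs : ChartedSpace (Fin q → ℝ) X :=
    { atlas := Set.univ
      chartAt := e
      mem_chart_source := he
      chart_mem_atlas := fun _ => trivial }
  exact ChartedSpace.locallyPathConnectedSpace (Fin q → ℝ) X

/-- The Weyl group of the root datum `P` (Mathlib's `RootPairing.weylGroup`). -/
def WeylGp {ι M N : Type*} [AddCommGroup M] [AddCommGroup N] (P : RootDatum ι M N) : Type _ :=
  P.weylGroup

noncomputable instance {ι M N : Type*} [AddCommGroup M] [AddCommGroup N] (P : RootDatum ι M N) :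
    Group (WeylGp P) := inferInstanceAs (Group P.weylGroup)

/-- The linear automorphism of the lattice `M` given by an element of the Weyl group. -/
noncomputable def WeylGp.lin {ι M N : Type*} [AddCommGroup M] [AddCommGroup N]
    {P : RootDatum ι M N} (g : WeylGp P) : M ≃ₗ[ℤ] M :=
  RootPairing.Equiv.weightHom P g.1

/-- `g` is the reflection in one of the roots. -/
def WeylGp.IsReflection {ι M N : Type*} [AddCommGroup M] [AddCommGroup N] {P : RootDatum ι M N}
    (g : WeylGp P) : Prop :=
  ∃ i : ι, g = RootPairing.weylGroup.ofIdx P i

/-- `W`, acting on the lattice `M` through `ρ` and with the set of reflections `R`, is the Weyl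
group of the reduced root datum `P`. -/
def IsWeylGroupOf {ι M N W : Type*} [AddCommGroup M] [AddCommGroup N] [Group W]
    (P : RootDatum ι M N) (ρ : W → M → M) (R : Set W) : Prop :=
  P.IsReduced ∧ ∃ e : W ≃* WeylGp P, ∀ w, ⇑(e w).lin = ρ w ∧ (w ∈ R ↔ (e w).IsReflection)

/-- The group `W`, with the representation `L` on `ℤ^q` and the set of reflections `R`, is the Weyl
group of a reduced root datum on `ℤ^q` with finitely many roots. -/
def IsWeylGroup {q : ℕ} {W : Type*} [Group W] (L : W →* GL (Fin q) ℤ) (R : Set W) : Prop :=
  ∃ (ι : Type) (_ : Finite ι) (P : RootDatum ι (Fin q → ℤ) (Module.Dual ℤ (Fin q → ℤ))),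
    IsWeylGroupOf P (fun w => (L w : Matrix (Fin q) (Fin q) ℤ).mulVec) R

/-- The set of geometric reflections of `W`. -/
def IntegralAffineAction.reflections {q : ℕ} {W X : Type*} [TopologicalSpace X] [Group W]
    [MulAction W X] (I : IntegralAffineAction q W X) : Set W :=
  {r : W | I.IsGeometricReflection r}

end Pool.Agent.Lib.MPf9c64b

open Pool.Agent.Lib.MPf9c64b

theorem Pool.Agent.Results.MP_f9c64b_gt.LieType.result
    {q : ℕ} {W X : Type*} [TopologicalSpace X] [T2Space X] [SimplyConnectedSpace X]
    [Group W] [MulAction W X] [ContinuousConstSMul W X] [FaithfulSMul W X]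
    (I : IntegralAffineAction q W X) (hgen : Subgroup.closure I.reflections = ⊤) :
    (∀ r ∈ I.reflections, ∀ s ∈ I.reflections, IsOfFinOrder (s * r) →
      orderOf (s * r) ∈ ({1, 2, 3, 4, 6} : Set ℕ)) ∧
    (Finite W → IsWeylGroup I.lin I.reflections) := by
  have := I.locallyPathConnectedSpace
  refine ⟨fun r hr s hs h => I.orderOf_mul_mem hr hs h, fun hfin => ?_⟩
  obtain ⟨ι, h1, P, e, h2, h3, h4⟩ := I.exists_rootDatum hgen
  refine ⟨ι, h1, P, h2, e, fun w => ⟨?_, ?_⟩⟩
  · funext v
    exact h3 w v
  · refine (h4 w).trans ?_
    constructor
    · rintro ⟨i, hi⟩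
      exact ⟨i, Subtype.ext hi⟩
    · rintro ⟨i, hi⟩
      exact ⟨i, congrArg Subtype.val hi⟩
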